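import Pool.Agent.H568.PH.Stm

/-!
Project PH (helper568), task TY: linear sums over the triangle function. The triangle function is a difference of two increasing
functions (`ua`, `ub`), and `F1` is a primitive of `t ↦ tri δ (√(c t) - β) - δ`; the mean value theorem on every interval `[l, l + 1]`.
-/

set_option autoImplicit false

open Finset Filter Topology Pool.Agent.N792 Pool.Agent.H568.PH

namespace Pool.Agent.H263.PH

/-- the increasing part -/
noncomputable def ua (δ θ : ℝ) : ℝ := round θ + max 0 (min 1 (1 + (θ - round θ) / δ))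

/-- the decreasing part -/
noncomputable def ub (δ θ : ℝ) : ℝ := round θ + max 0 (min 1 ((θ - round θ) / δ))

lemma tri_eq {δ : ℝ} (hδ : 0 < δ) (θ : ℝ) : tri δ θ = ua δ θ - ub δ θ := by
  unfold tri ua ub
  set r := θ - round θ with hr
  rcases le_total 0 r with h | h
  · have h1 : 0 ≤ r / δ := by positivity
    rw [abs_of_nonneg h, min_eq_left (by linarith : (1 : ℝ) ≤ 1 + r / δ)]
    rcases le_total 1 (r / δ) with h2 | h2
    · rw [min_eq_left h2, max_eq_left (by linarith)]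
      simp
    · rw [min_eq_right h2, max_eq_right (by linarith), max_eq_right h1, max_eq_right (by norm_num)]
      ring
  · have h1 : r / δ ≤ 0 := div_nonpos_of_nonpos_of_nonneg h hδ.le
    rw [abs_of_nonpos h, min_eq_right (by linarith : 1 + r / δ ≤ (1 : ℝ)), min_eq_right (by linarith : r / δ ≤ 1),
      max_eq_left h1]
    rw [neg_div]
    ring_nf

lemma round_mono' {x y : ℝ} (h : x ≤ y) : round x ≤ round y := by
  rw [round_eq, round_eq]
  exact Int.floor_mono (by linarith)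

lemma stepmono (w : ℝ → ℝ) (hw0 : ∀ r, 0 ≤ w r) (hw1 : ∀ r, w r ≤ 1) (hw : Monotone w) :
    Monotone (fun θ : ℝ => (round θ : ℝ) + w (θ - round θ)) := by
  intro x y h
  have h1 := round_mono' h
  show (round x : ℝ) + w (x - round x) ≤ (round y : ℝ) + w (y - round y)
  rcases h1.lt_or_eq with h2 | h2
  · have h3 : (round x : ℝ) + 1 ≤ round y := by exact_mod_cast h2
    linarith [hw0 (y - round y), hw1 (x - round x)]
  · rw [← h2]
    have := hw (show x - round x ≤ y - round x by linarith)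
    linarith

lemma ua_mono {δ : ℝ} (hδ : 0 < δ) : Monotone (ua δ) := by
  apply stepmono (fun r => max 0 (min 1 (1 + r / δ)))
  · intro r; exact le_max_left _ _
  · intro r; exact max_le (by norm_num) (min_le_left _ _)
  · intro r s h
    have h1 : r / δ ≤ s / δ := by gcongr
    exact max_le_max le_rfl (min_le_min le_rfl (by linarith))

lemma ub_mono {δ : ℝ} (hδ : 0 < δ) : Monotone (ub δ) := by
  apply stepmono (fun r => max 0 (min 1 (r / δ)))
  · intro r; exact le_max_left _ _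
  · intro r; exact max_le (by norm_num) (min_le_left _ _)
  · intro r s h
    have h1 : r / δ ≤ s / δ := by gcongr
    exact max_le_max le_rfl (min_le_min le_rfl (by linarith))

lemma ua_le (δ θ : ℝ) : ua δ θ ≤ θ + 2 := by
  unfold ua
  have h1 : max 0 (min 1 (1 + (θ - round θ) / δ)) ≤ 1 := max_le (by norm_num) (min_le_left _ _)
  have h2 := abs_le.mp (abs_sub_round θ)
  linarith [h2.1, h2.2]

lemma le_ua (δ θ : ℝ) : θ - 1 ≤ ua δ θ := by
  unfold ua
  have h1 : 0 ≤ max 0 (min 1 (1 + (θ - round θ) / δ)) := le_max_left _ _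
  have h2 := abs_le.mp (abs_sub_round θ)
  linarith [h2.1, h2.2]

lemma ub_le (δ θ : ℝ) : ub δ θ ≤ θ + 2 := by
  unfold ub
  have h1 : max 0 (min 1 ((θ - round θ) / δ)) ≤ 1 := max_le (by norm_num) (min_le_left _ _)
  have h2 := abs_le.mp (abs_sub_round θ)
  linarith [h2.1, h2.2]

lemma le_ub (δ θ : ℝ) : θ - 1 ≤ ub δ θ := by
  unfold ub
  have h1 : 0 ≤ max 0 (min 1 ((θ - round θ) / δ)) := le_max_left _ _
  have h2 := abs_le.mp (abs_sub_round θ)
  linarith [h2.1, h2.2]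

lemma tri_cont (δ : ℝ) : Continuous (tri δ) := by
  have h : Continuous (fun θ : ℝ => |θ - round θ|) := by
    have h1 : (fun θ : ℝ => |θ - round θ|) = fun θ : ℝ => ‖(θ : UnitAddCircle)‖ := by
      funext θ
      rw [UnitAddCircle.norm_eq]
    rw [h1]
    exact continuous_norm.comp (AddCircle.continuous_mk' 1)
  exact continuous_const.max (continuous_const.sub (h.div_const δ))

lemma tri_per (δ : ℝ) : Function.Periodic (tri δ) 1 := by
  intro θ
  unfold tri
  rw [round_add_one]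
  push_cast
  congr 3
  ring_nf

lemma tri_nonneg (δ θ : ℝ) : 0 ≤ tri δ θ := le_max_left _ _

lemma tri_le_one {δ : ℝ} (hδ : 0 < δ) (θ : ℝ) : tri δ θ ≤ 1 := by
  unfold tri
  apply max_le (by norm_num)
  have : 0 ≤ |θ - round θ| / δ := by positivity
  linarith

lemma absr1 {θ : ℝ} (h0 : 0 ≤ θ) (h1 : θ ≤ 1 / 2) : |θ - round θ| = θ := by
  rcases h1.lt_or_eq with h | h
  · have h2 : round θ = 0 := by
      rw [round_eq, Int.floor_eq_iff]
      push_cast
      constructor <;> linarith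
    rw [h2]; push_cast; rw [sub_zero, abs_of_nonneg h0]
  · have h2 : round θ = 1 := by
      rw [round_eq, Int.floor_eq_iff]
      push_cast
      constructor <;> linarith
    rw [h2]; push_cast; rw [abs_of_nonpos (by linarith)]; linarith

lemma absr2 {θ : ℝ} (h0 : 1 / 2 ≤ θ) (h1 : θ ≤ 1) : |θ - round θ| = 1 - θ := by
  have h2 : round θ = 1 := by
    rw [round_eq, Int.floor_eq_iff]
    push_cast
    constructor <;> linarith
  rw [h2]; push_cast; rw [abs_of_nonpos (by linarith)]; linarith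

lemma tri_int {δ : ℝ} (hδ : 0 < δ) (hδ2 : δ ≤ 1 / 2) : ∫ θ in (0 : ℝ)..1, tri δ θ = δ := by
  have hc := tri_cont δ
  have hi : ∀ a b : ℝ, IntervalIntegrable (tri δ) MeasureTheory.volume a b := fun a b => hc.intervalIntegrable a b
  have h1 : ∫ θ in (0 : ℝ)..1, tri δ θ = (∫ θ in (0 : ℝ)..δ, tri δ θ) + (∫ θ in δ..(1 - δ), tri δ θ) + ∫ θ in (1 - δ)..1, tri δ θ := by
    rw [intervalIntegral.integral_add_adjacent_intervals (hi _ _) (hi _ _),
      intervalIntegral.integral_add_adjacent_intervals (hi _ _) (hi _ _)]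
  have h2 : ∫ θ in (0 : ℝ)..δ, tri δ θ = ∫ θ in (0 : ℝ)..δ, (1 - θ / δ) := by
    apply intervalIntegral.integral_congr
    intro θ hθ
    rw [Set.uIcc_of_le hδ.le] at hθ
    show tri δ θ = 1 - θ / δ
    unfold tri
    rw [absr1 hθ.1 (by linarith [hθ.2])]
    apply max_eq_right
    have : θ / δ ≤ 1 := by rw [div_le_one hδ]; exact hθ.2
    linarith
  have h3 : ∫ θ in δ..(1 - δ), tri δ θ = 0 := by
    have h4 : ∫ θ in δ..(1 - δ), tri δ θ = ∫ θ in δ..(1 - δ), (0 : ℝ) := by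
      apply intervalIntegral.integral_congr
      intro θ hθ
      rw [Set.uIcc_of_le (by linarith : δ ≤ 1 - δ)] at hθ
      show tri δ θ = 0
      unfold tri
      apply max_eq_left
      have h5 : δ ≤ |θ - round θ| := by
        rcases le_total θ (1 / 2) with h | h
        · rw [absr1 (by linarith [hθ.1]) h]; exact hθ.1
        · rw [absr2 h (by linarith [hθ.2])]; linarith [hθ.2]
      have : 1 ≤ |θ - round θ| / δ := by rw [le_div_iff₀ hδ]; linarith
      linarith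
    rw [h4]; simp
  have h6 : ∫ θ in (1 - δ)..1, tri δ θ = ∫ θ in (1 - δ)..1, (1 - (1 - θ) / δ) := by
    apply intervalIntegral.integral_congr
    intro θ hθ
    rw [Set.uIcc_of_le (by linarith : 1 - δ ≤ 1)] at hθ
    show tri δ θ = 1 - (1 - θ) / δ
    unfold tri
    rw [absr2 (by linarith [hθ.1]) hθ.2]
    apply max_eq_right
    have : (1 - θ) / δ ≤ 1 := by rw [div_le_one hδ]; linarith [hθ.1]
    linarith
  have h7 : ∫ θ in (0 : ℝ)..δ, (1 - θ / δ) = δ / 2 := by
    have : ∀ x : ℝ, HasDerivAt (fun θ : ℝ => θ - θ ^ 2 / (2 * δ)) (1 - x / δ) x := by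
      intro x
      have h8 := (hasDerivAt_id' x).sub ((hasDerivAt_pow 2 x).div_const (2 * δ))
      refine h8.congr_deriv ?_
      field_simp
      norm_num
      try ring
    rw [intervalIntegral.integral_eq_sub_of_hasDerivAt (fun x _ => this x) ((by fun_prop : Continuous fun x : ℝ => 1 - x / δ).intervalIntegrable _ _)]
    field_simp
    ring
  have h8 : ∫ θ in (1 - δ)..1, (1 - (1 - θ) / δ) = δ / 2 := by
    have : ∀ x : ℝ, HasDerivAt (fun θ : ℝ => θ + (1 - θ) ^ 2 / (2 * δ)) (1 - (1 - x) / δ) x := by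
      intro x
      have h9 := (hasDerivAt_id' x).add ((((hasDerivAt_id' x).const_sub 1).pow 2).div_const (2 * δ))
      refine h9.congr_deriv ?_
      field_simp
      norm_num
      try ring
    rw [intervalIntegral.integral_eq_sub_of_hasDerivAt (fun x _ => this x) ((by fun_prop : Continuous fun x : ℝ => 1 - (1 - x) / δ).intervalIntegrable _ _)]
    field_simp
    ring
  rw [h1, h2, h3, h6, h7, h8]
  ring

/-- the function with mean `0` -/
noncomputable def gg (δ β s : ℝ) : ℝ := tri δ (s - β) - δ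

lemma gg_cont (δ β : ℝ) : Continuous (gg δ β) := by
  unfold gg
  exact ((tri_cont δ).comp (continuous_id.sub continuous_const)).sub continuous_const

lemma gg_per (δ β : ℝ) : Function.Periodic (gg δ β) 1 := by
  intro s
  unfold gg
  have := tri_per δ (s - β)
  rw [show s + 1 - β = s - β + 1 by ring, this]

lemma gg_int {δ : ℝ} (hδ : 0 < δ) (hδ2 : δ ≤ 1 / 2) (β : ℝ) : ∫ s in (0 : ℝ)..1, gg δ β s = 0 := by
  unfold gg
  have hc2 : Continuous (fun s : ℝ => tri δ (s - β)) := (tri_cont δ).comp (continuous_id.sub continuous_const)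
  rw [intervalIntegral.integral_sub (hc2.intervalIntegrable _ _) (continuous_const.intervalIntegrable _ _)]
  rw [intervalIntegral.integral_comp_sub_right (fun s => tri δ s) β]
  have h := (tri_per δ).intervalIntegral_add_eq (0 - β) 0
  rw [show 0 - β + 1 = 1 - β by ring, zero_add] at h
  rw [h, tri_int hδ hδ2]
  simp

lemma gg_abs {δ : ℝ} (hδ : 0 < δ) (hδ2 : δ ≤ 1 / 2) (β s : ℝ) : |gg δ β s| ≤ 1 := by
  unfold gg
  rw [abs_le]
  constructor <;> linarith [tri_nonneg δ (s - β), tri_le_one hδ (s - β)]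

/-- the primitive -/
noncomputable def G1 (δ β s : ℝ) : ℝ := ∫ u in (0 : ℝ)..s, gg δ β u

lemma G1_abs {δ : ℝ} (hδ : 0 < δ) (hδ2 : δ ≤ 1 / 2) (β s : ℝ) : |G1 δ β s| ≤ 1 := by
  unfold G1
  have hi : ∀ a b : ℝ, IntervalIntegrable (gg δ β) MeasureTheory.volume a b := fun a b => (gg_cont δ β).intervalIntegrable a b
  have h1 : ∫ u in (0 : ℝ)..s, gg δ β u = (∫ u in (0 : ℝ)..(⌊s⌋ : ℝ), gg δ β u) + ∫ u in (⌊s⌋ : ℝ)..s, gg δ β u := by
    rw [intervalIntegral.integral_add_adjacent_intervals (hi _ _) (hi _ _)]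
  have h2 : ∫ u in (0 : ℝ)..(⌊s⌋ : ℝ), gg δ β u = 0 := by
    have h3 := (gg_per δ β).intervalIntegral_add_zsmul_eq ⌊s⌋ 0
    have h4 := h3 (fun a b => hi a b)
    simp only [zero_add] at h4
    rw [gg_int hδ hδ2] at h4
    simpa using h4
  rw [h1, h2, zero_add]
  have h5 := intervalIntegral.norm_integral_le_of_norm_le_const (a := (⌊s⌋ : ℝ)) (b := s) (f := gg δ β) (C := 1)
    (fun x _ => by rw [Real.norm_eq_abs]; exact gg_abs hδ hδ2 β x)
  rw [Real.norm_eq_abs] at h5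
  refine h5.trans ?_
  rw [one_mul, abs_of_nonneg (by linarith [Int.floor_le s])]
  linarith [Int.lt_floor_add_one s]

lemma G1_deriv (δ β s : ℝ) : HasDerivAt (G1 δ β) (gg δ β s) s := by
  unfold G1
  exact ((gg_cont δ β).integral_hasStrictDerivAt 0 s).hasDerivAt

lemma G1_cont (δ β : ℝ) : Continuous (G1 δ β) := by
  rw [continuous_iff_continuousAt]
  intro s
  exact (G1_deriv δ β s).continuousAt

/-- the second primitive -/
noncomputable def G2 (δ β s : ℝ) : ℝ := ∫ u in (0 : ℝ)..s, G1 δ β u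

lemma G2_deriv (δ β s : ℝ) : HasDerivAt (G2 δ β) (G1 δ β s) s := by
  unfold G2
  exact ((G1_cont δ β).integral_hasStrictDerivAt 0 s).hasDerivAt

lemma G2_abs {δ : ℝ} (hδ : 0 < δ) (hδ2 : δ ≤ 1 / 2) (β s : ℝ) : |G2 δ β s| ≤ |s| := by
  unfold G2
  have h5 := intervalIntegral.norm_integral_le_of_norm_le_const (a := (0 : ℝ)) (b := s) (f := G1 δ β) (C := 1)
    (fun x _ => by rw [Real.norm_eq_abs]; exact G1_abs hδ hδ2 β x)
  rw [Real.norm_eq_abs] at h5
  simpa using h5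

/-- the primitive of `g(s) s` -/
noncomputable def H1 (δ β s : ℝ) : ℝ := G1 δ β s * s - G2 δ β s

lemma H1_deriv (δ β s : ℝ) : HasDerivAt (H1 δ β) (gg δ β s * s) s := by
  have h := ((G1_deriv δ β s).mul (hasDerivAt_id' s)).sub (G2_deriv δ β s)
  refine h.congr_deriv ?_
  ring

lemma H1_abs {δ : ℝ} (hδ : 0 < δ) (hδ2 : δ ≤ 1 / 2) (β s : ℝ) (hs : 0 ≤ s) : |H1 δ β s| ≤ 2 * s := by
  unfold H1
  have h1 := G1_abs hδ hδ2 β s
  have h2 := G2_abs hδ hδ2 β s
  rw [abs_of_nonneg hs] at h2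
  have h3 : |G1 δ β s * s| ≤ 1 * s := by
    rw [abs_mul, abs_of_nonneg hs]
    exact mul_le_mul_of_nonneg_right h1 hs
  have h4 := abs_sub (G1 δ β s * s) (G2 δ β s)
  linarith

/-- the primitive in the variable `t` -/
noncomputable def F1 (δ β c t : ℝ) : ℝ := 2 / c * H1 δ β (√(c * t))

lemma F1_deriv (δ β : ℝ) {c t : ℝ} (hc : 0 < c) (ht : 0 < t) : HasDerivAt (F1 δ β c) (gg δ β (√(c * t))) t := by
  have h0 : HasDerivAt (fun t : ℝ => c * t) (c * 1) t := (hasDerivAt_id' t).const_mul c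
  have h1 := h0.sqrt (by positivity)
  have h2 := (HasDerivAt.comp t (H1_deriv δ β (√(c * t))) h1).const_mul (2 / c)
  refine h2.congr_deriv ?_
  have h3 : 0 < √(c * t) := Real.sqrt_pos.mpr (by positivity)
  field_simp

lemma F1_cont (δ β c : ℝ) : Continuous (F1 δ β c) := by
  have h : Continuous (H1 δ β) := by
    rw [continuous_iff_continuousAt]
    intro s
    exact (H1_deriv δ β s).continuousAt
  unfold F1
  exact continuous_const.mul (h.comp (Real.continuous_sqrt.comp (continuous_const.mul continuous_id)))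

lemma one_step {δ : ℝ} (hδ : 0 < δ) (β : ℝ) {c : ℝ} (hc : 0 < c) (l : ℕ) :
    |gg δ β (√(c * ((l + 1 : ℕ) : ℝ))) - (F1 δ β c ((l + 1 : ℕ) : ℝ) - F1 δ β c (l : ℝ))| ≤
      (ua δ (√(c * ((l + 1 : ℕ) : ℝ)) - β) - ua δ (√(c * (l : ℝ)) - β)) +
      (ub δ (√(c * ((l + 1 : ℕ) : ℝ)) - β) - ub δ (√(c * (l : ℝ)) - β)) := by
  have hl : (l : ℝ) < ((l + 1 : ℕ) : ℝ) := by push_cast; linarith
  have hl0 : (0 : ℝ) ≤ l := Nat.cast_nonneg l
  obtain ⟨ξ, hξ, h⟩ := exists_hasDerivAt_eq_slope (F1 δ β c) (fun t => gg δ β (√(c * t))) hl (F1_cont δ β c).continuousOn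
    (fun t ht => F1_deriv δ β hc (lt_of_le_of_lt hl0 ht.1))
  have h1 : ((l + 1 : ℕ) : ℝ) - l = 1 := by push_cast; ring
  rw [h1, div_one] at h
  rw [← h]
  show |gg δ β (√(c * ((l + 1 : ℕ) : ℝ))) - gg δ β (√(c * ξ))| ≤ _
  unfold gg
  rw [tri_eq hδ, tri_eq hδ]
  have s1 : √(c * (l : ℝ)) ≤ √(c * ξ) := Real.sqrt_le_sqrt (mul_le_mul_of_nonneg_left hξ.1.le hc.le)
  have s2 : √(c * ξ) ≤ √(c * ((l + 1 : ℕ) : ℝ)) := Real.sqrt_le_sqrt (mul_le_mul_of_nonneg_left hξ.2.le hc.le)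
  have a1 := ua_mono hδ (show √(c * (l : ℝ)) - β ≤ √(c * ξ) - β by linarith)
  have a2 := ua_mono hδ (show √(c * ξ) - β ≤ √(c * ((l + 1 : ℕ) : ℝ)) - β by linarith)
  have b1 := ub_mono hδ (show √(c * (l : ℝ)) - β ≤ √(c * ξ) - β by linarith)
  have b2 := ub_mono hδ (show √(c * ξ) - β ≤ √(c * ((l + 1 : ℕ) : ℝ)) - β by linarith)
  rw [abs_le]
  constructor <;> linarith

lemma sum_step {δ : ℝ} (hδ : 0 < δ) (β : ℝ) {c : ℝ} (hc : 0 < c) (A b : ℕ) (hAb : A ≤ b) :
    |∑ l ∈ Ioc A b, gg δ β (√(c * (l : ℝ))) - (F1 δ β c (b : ℝ) - F1 δ β c (A : ℝ))| ≤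
      (ua δ (√(c * (b : ℝ)) - β) - ua δ (√(c * (A : ℝ)) - β)) +
      (ub δ (√(c * (b : ℝ)) - β) - ub δ (√(c * (A : ℝ)) - β)) := by
  induction b, hAb using Nat.le_induction with
  | base => simp
  | succ b hb ih =>
    rw [Finset.sum_Ioc_succ_top (by omega)]
    have h := one_step hδ β hc b
    have h2 := abs_add_le (∑ l ∈ Ioc A b, gg δ β (√(c * (l : ℝ))) - (F1 δ β c (b : ℝ) - F1 δ β c (A : ℝ)))
      (gg δ β (√(c * ((b + 1 : ℕ) : ℝ))) - (F1 δ β c ((b + 1 : ℕ) : ℝ) - F1 δ β c (b : ℝ)))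
    have h3 : ∑ l ∈ Ioc A b, gg δ β (√(c * (l : ℝ))) + gg δ β (√(c * ((b + 1 : ℕ) : ℝ))) -
        (F1 δ β c ((b + 1 : ℕ) : ℝ) - F1 δ β c (A : ℝ)) =
        (∑ l ∈ Ioc A b, gg δ β (√(c * (l : ℝ))) - (F1 δ β c (b : ℝ) - F1 δ β c (A : ℝ))) +
      (gg δ β (√(c * ((b + 1 : ℕ) : ℝ))) - (F1 δ β c ((b + 1 : ℕ) : ℝ) - F1 δ β c (b : ℝ))) := by ring
    rw [h3]
    linarith

theorem t_TY : S_TY := by
  intro a m ha hm
  refine ⟨8 * a * m + 2 * m + 6, by positivity, ?_⟩
  intro x hx N b j hj _ _ hjb β0 δ hδ hδ2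
  have ha' : (1 : ℝ) ≤ a := by exact_mod_cast ha
  have hm' : (1 : ℝ) ≤ m := by exact_mod_cast hm
  have hx' : (1 : ℝ) ≤ x := by exact_mod_cast hx
  have hj' : (1 : ℝ) ≤ j := by exact_mod_cast hj
  rcases lt_or_ge b (N / j) with hlt | hle
  · rw [Finset.Ioc_eq_empty (by omega)]
    simp
    positivity
  set A := N / j with hA
  have hc : (0 : ℝ) < (j : ℝ) / a := by positivity
  have e1 : ∑ l ∈ Ioc A b, (tri δ (√(((j * l : ℕ) : ℝ) / a) - β0) - δ) =
      ∑ l ∈ Ioc A b, gg δ β0 (√((j : ℝ) / a * (l : ℝ))) := by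
    apply Finset.sum_congr rfl
    intro l _
    unfold gg
    congr 4
    push_cast
    ring
  rw [e1]
  have h := sum_step hδ β0 hc A b hle
  set y := √((j : ℝ) / a * (b : ℝ)) with hy
  set z := √((j : ℝ) / a * (A : ℝ)) with hz
  have hzy : z ≤ y := by
    apply Real.sqrt_le_sqrt
    have : (A : ℝ) ≤ b := by exact_mod_cast hle
    gcongr
  have hz0 : 0 ≤ z := Real.sqrt_nonneg _
  have hy0 : 0 ≤ y := Real.sqrt_nonneg _
  have hyx : y ≤ m * x := by
    apply Real.sqrt_le_iff.mpr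
    refine ⟨by positivity, ?_⟩
    push_cast at hjb
    have h1 : (j : ℝ) / a * b ≤ j * b := by
      rw [div_mul_eq_mul_div, div_le_iff₀ (by linarith)]
      have : (0 : ℝ) ≤ j * b := by positivity
      nlinarith
    have h2 : (m : ℝ) * (x : ℝ) ^ 2 ≤ (m * x) ^ 2 := by
      have : (0 : ℝ) ≤ (x : ℝ) ^ 2 := by positivity
      nlinarith
    linarith
  have hF : ∀ t : ℝ, |F1 δ β0 ((j : ℝ) / a) t| ≤ 4 * a * √((j : ℝ) / a * t) := by
    intro t
    unfold F1
    rw [abs_mul]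
    have h1 := H1_abs hδ hδ2 β0 (√((j : ℝ) / a * t)) (Real.sqrt_nonneg _)
    have h2 : |2 / ((j : ℝ) / a)| ≤ 2 * a := by
      rw [abs_of_pos (by positivity)]
      rw [div_div_eq_mul_div, div_le_iff₀ (by linarith)]
      have : (0 : ℝ) ≤ 2 * a := by positivity
      nlinarith
    calc |2 / ((j : ℝ) / a)| * |H1 δ β0 (√((j : ℝ) / a * t))| ≤ (2 * a) * (2 * √((j : ℝ) / a * t)) := by
          apply mul_le_mul h2 h1 (abs_nonneg _) (by positivity)
      _ = 4 * a * √((j : ℝ) / a * t) := by ring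
  have hFb := abs_le.mp (hF b)
  have hFA := abs_le.mp (hF A)
  rw [← hy] at hFb
  rw [← hz] at hFA
  have u1 := ua_le δ (y - β0)
  have u2 := le_ua δ (z - β0)
  have u3 := ub_le δ (y - β0)
  have u4 := le_ub δ (z - β0)
  have hh := abs_le.mp h
  have p1 : (a : ℝ) * z ≤ a * y := by gcongr
  have p2 : (a : ℝ) * y ≤ a * (m * x) := by gcongr
  rw [abs_le]
  constructor <;> nlinarith [hh.1, hh.2, hFb.1, hFb.2, hFA.1, hFA.2]

end Pool.Agent.H263.PH
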